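import Pool.Agent.helper80.HH.SpecA

set_option autoImplicit false

namespace Pool.Agent.HH

open MeasureTheory Set

theorem ABG_ps_le (P : Finset ℤ) (u : ℝ) : ‖IR.ps P u‖ ≤ P.card := by
  unfold IR.ps
  refine (norm_sum_le _ _).trans ?_
  refine (Finset.sum_le_sum fun q _ => (Complex.norm_exp_ofReal_mul_I _).le).trans ?_
  simp

/-- integral of a step function -/
theorem ABG_step (L : ℕ) (Y : Set ℝ) (y2 : ℝ) (hY : MeasurableSet Y) (hY1 : Y ⊆ Icc 0 1)
    (hy : ∀ a : ℤ, volume.real (Y ∩ {v | ⌊v * L⌋ = a}) ≤ y2) (m : ℤ → ℝ) (hm : ∀ a, 0 ≤ m a) :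
    IntegrableOn (fun v : ℝ => m ⌊v * L⌋) Y ∧ ∫ v in Y, m ⌊v * L⌋ ≤ y2 * ∑ a ∈ ac L Y, m a := by
  classical
  have hfin : volume Y ≠ ⊤ := by
    refine ne_top_of_le_ne_top ?_ (measure_mono hY1)
    simp
  have hfl : Measurable (fun v : ℝ => ⌊v * L⌋) := (measurable_id.mul_const _).floor
  have hms : ∀ a : ℤ, MeasurableSet {v : ℝ | ⌊v * L⌋ = a} := fun a => hfl (measurableSet_singleton a)
  have hrep : ∀ v ∈ Y, m ⌊v * L⌋ = ∑ a ∈ ac L Y, Set.indicator {v : ℝ | ⌊v * L⌋ = a} (fun _ => m a) v := by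
    intro v hv
    have hmem : ⌊v * L⌋ ∈ ac L Y := by
      unfold ac
      rw [Finset.mem_filter, Finset.mem_Icc]
      have h01 := hY1 hv
      have hL0 : (0 : ℝ) ≤ L := Nat.cast_nonneg L
      refine ⟨⟨Int.floor_nonneg.2 (mul_nonneg h01.1 hL0), ?_⟩, v, hv, rfl⟩
      have h1 : (⌊v * L⌋ : ℝ) ≤ (L : ℝ) := (Int.floor_le _).trans (by nlinarith [h01.2])
      exact_mod_cast h1
    rw [Finset.sum_eq_single ⌊v * L⌋]
    · rw [Set.indicator_of_mem]; rfl
    · intro b _ hb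
      rw [Set.indicator_of_notMem]
      intro h
      exact hb h.symm
    · intro h; exact absurd hmem h
  have hint : ∀ a ∈ ac L Y, Integrable (Set.indicator {v : ℝ | ⌊v * L⌋ = a} (fun _ => m a)) (volume.restrict Y) := by
    intro a _
    have h1 : IntegrableOn (fun _ : ℝ => m a) Y := by
      apply integrableOn_const hfin
    exact h1.indicator (hms a)
  have hae : (fun v : ℝ => m ⌊v * L⌋) =ᵐ[volume.restrict Y] fun v => ∑ a ∈ ac L Y, Set.indicator {v : ℝ | ⌊v * L⌋ = a} (fun _ => m a) v := by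
    filter_upwards [ae_restrict_mem hY] with v hv using hrep v hv
  refine ⟨?_, ?_⟩
  · exact (integrable_finsetSum _ hint).congr hae.symm
  · rw [integral_congr_ae hae, integral_finsetSum _ hint, Finset.mul_sum]
    apply Finset.sum_le_sum
    intro a _
    rw [setIntegral_indicator (hms a), setIntegral_const, smul_eq_mul]
    exact mul_le_mul_of_nonneg_right (hy a) (hm a)

theorem ABG_part1 (P : Finset ℤ) (L : ℕ) (s t y2 F : ℝ) (Y : Set ℝ) (hL : 1 ≤ L) (hs0 : 0 ≤ s) (hs8 : s ≤ 8)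
    (hY : MeasurableSet Y) (hY1 : Y ⊆ Icc 0 1) (hPF : (P.card : ℝ) ≤ F) (hy : ∀ a : ℤ, volume.real (Y ∩ {v | ⌊v * L⌋ = a}) ≤ y2) :
    ∫ v in Y, ∫ v' in Y, ‖IR.ps P (s * (v - v'))‖ ^ 2 ≤ y2 ^ 2 * (F ^ 2 * (gr P L s t (ac L Y)).card + t ^ 2 * ((ac L Y).card : ℝ) ^ 2) := by
  classical
  have hLr : (1 : ℝ) ≤ L := by exact_mod_cast hL
  have hy2 : 0 ≤ y2 := le_trans measureReal_nonneg (hy 0)
  have hF : 0 ≤ F := le_trans (Nat.cast_nonneg _) hPF
  set K := ac L Y with hK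
  set M : ℤ → ℤ → ℝ := fun a a' => if (a, a') ∈ gr P L s t K then F ^ 2 else t ^ 2 with hM
  have hM0 : ∀ a a', 0 ≤ M a a' := by
    intro a a'
    rw [hM]
    dsimp only
    split_ifs <;> positivity
  have hmemK : ∀ v ∈ Y, ⌊v * L⌋ ∈ K := by
    intro v hv
    rw [hK]
    unfold ac
    rw [Finset.mem_filter, Finset.mem_Icc]
    have h01 := hY1 hv
    refine ⟨⟨Int.floor_nonneg.2 (mul_nonneg h01.1 (by linarith)), ?_⟩, v, hv, rfl⟩
    have h1 : (⌊v * L⌋ : ℝ) ≤ (L : ℝ) := (Int.floor_le _).trans (by nlinarith [h01.2])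
    exact_mod_cast h1
  have hg : ∀ v ∈ Y, ∀ v' ∈ Y, ‖IR.ps P (s * (v - v'))‖ ^ 2 ≤ M ⌊v * L⌋ ⌊v' * L⌋ := by
    intro v hv v' hv'
    rw [hM]
    dsimp only
    split_ifs with h
    · have h1 := (ABG_ps_le P (s * (v - v'))).trans hPF
      exact pow_le_pow_left₀ (norm_nonneg _) h1 2
    · have h1 : ‖IR.ps P (s * (v - v'))‖ ≤ t := by
        by_contra hcon
        push Not at hcon
        apply h
        unfold gr
        rw [Finset.mem_filter, Finset.mem_product]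
        refine ⟨⟨hmemK v hv, hmemK v' hv'⟩, s * (v - v'), ?_, hcon.le⟩
        dsimp only
        have e1 := Int.floor_le (v * L)
        have e2 := Int.lt_floor_add_one (v * L)
        have e3 := Int.floor_le (v' * L)
        have e4 := Int.lt_floor_add_one (v' * L)
        have h2 : s * (v - v') - s * ((⌊v * L⌋ : ℝ) - (⌊v' * L⌋ : ℝ)) / L =
            s * ((v * L - ⌊v * L⌋) - (v' * L - ⌊v' * L⌋)) / L := by
          field_simp
          ring
        rw [h2, abs_div, abs_mul, abs_of_nonneg hs0, abs_of_pos (by linarith : (0 : ℝ) < L)]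
        apply div_le_div_of_nonneg_right _ (by linarith)
        have h3 : |(v * L - ⌊v * L⌋) - (v' * L - ⌊v' * L⌋)| ≤ 1 := by
          rw [abs_le]; constructor <;> linarith
        nlinarith [abs_nonneg ((v * L - ⌊v * L⌋) - (v' * L - ⌊v' * L⌋))]
      exact pow_le_pow_left₀ (norm_nonneg _) h1 2
  have hinner : ∀ v ∈ Y, ∫ v' in Y, ‖IR.ps P (s * (v - v'))‖ ^ 2 ≤ y2 * ∑ a' ∈ K, M ⌊v * L⌋ a' := by
    intro v hv
    obtain ⟨h1, h2⟩ := ABG_step L Y y2 hY hY1 hy (M ⌊v * L⌋) (hM0 _)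
    refine le_trans ?_ h2
    apply integral_mono_of_nonneg
    · exact Filter.Eventually.of_forall fun v' => by positivity
    · exact h1
    · filter_upwards [ae_restrict_mem hY] with v' hv' using hg v hv v' hv'
  obtain ⟨h1, h2⟩ := ABG_step L Y y2 hY hY1 hy (fun a => y2 * ∑ a' ∈ K, M a a')
    (fun a => mul_nonneg hy2 (Finset.sum_nonneg fun a' _ => hM0 a a'))
  calc ∫ v in Y, ∫ v' in Y, ‖IR.ps P (s * (v - v'))‖ ^ 2
      ≤ ∫ v in Y, y2 * ∑ a' ∈ K, M ⌊v * L⌋ a' := by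
        apply integral_mono_of_nonneg
        · exact Filter.Eventually.of_forall fun v => integral_nonneg fun v' => by positivity
        · exact h1
        · filter_upwards [ae_restrict_mem hY] with v hv using hinner v hv
    _ ≤ y2 * ∑ a ∈ K, (y2 * ∑ a' ∈ K, M a a') := h2
    _ = y2 ^ 2 * ∑ z ∈ K ×ˢ K, M z.1 z.2 := by
        rw [← Finset.mul_sum, Finset.sum_product]
        ring
    _ ≤ y2 ^ 2 * (F ^ 2 * (gr P L s t K).card + t ^ 2 * (K.card : ℝ) ^ 2) := by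
        apply mul_le_mul_of_nonneg_left _ (by positivity)
        have h3 : ∀ z ∈ K ×ˢ K, M z.1 z.2 ≤ (if z ∈ gr P L s t K then F ^ 2 else 0) + t ^ 2 := by
          intro z _
          rw [hM]
          dsimp only
          split_ifs
          · nlinarith [sq_nonneg t]
          · simp
        refine (Finset.sum_le_sum h3).trans ?_
        rw [Finset.sum_add_distrib, Finset.sum_const, Finset.card_product, ← Finset.sum_filter]
        have h4 : (K ×ˢ K).filter (fun z => z ∈ gr P L s t K) = gr P L s t K := by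
          ext z
          rw [Finset.mem_filter]
          constructor
          · exact fun h => h.2
          · intro h
            refine ⟨?_, h⟩
            unfold gr at h
            exact (Finset.mem_filter.1 h).1
        rw [h4, Finset.sum_const, nsmul_eq_mul, nsmul_eq_mul]
        push_cast
        apply le_of_eq
        ring

theorem ABG_part2 (P : Finset ℤ) (L : ℕ) (s t : ℝ) (A : Finset ℤ) (hL : 1 ≤ L) (hs0 : 0 ≤ s) (hs8 : s ≤ 8)
    (hA : ∀ a ∈ A, 0 ≤ a ∧ a ≤ (L : ℤ)) : ∀ z ∈ gr P L s t A, ⌊s * z.1⌋ - ⌊s * z.2⌋ ∈ Vs P L t := by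
  classical
  intro z hz
  have hLr : (1 : ℝ) ≤ L := by exact_mod_cast hL
  unfold gr at hz
  rw [Finset.mem_filter, Finset.mem_product] at hz
  obtain ⟨⟨hz1, hz2⟩, u, hu, htu⟩ := hz
  have a1 := hA _ hz1
  have a2 := hA _ hz2
  have b1 : (0 : ℝ) ≤ z.1 := by exact_mod_cast a1.1
  have b2 : (z.1 : ℝ) ≤ L := by exact_mod_cast a1.2
  have b3 : (0 : ℝ) ≤ z.2 := by exact_mod_cast a2.1
  have b4 : (z.2 : ℝ) ≤ L := by exact_mod_cast a2.2
  have e1 := Int.floor_le (s * z.1)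
  have e2 := Int.lt_floor_add_one (s * z.1)
  have e3 := Int.floor_le (s * z.2)
  have e4 := Int.lt_floor_add_one (s * z.2)
  have hk1 : ((⌊s * z.1⌋ - ⌊s * z.2⌋ : ℤ) : ℝ) ≤ 20 * L := by
    push_cast
    nlinarith
  have hk2 : -(20 * (L : ℝ)) ≤ ((⌊s * z.1⌋ - ⌊s * z.2⌋ : ℤ) : ℝ) := by
    push_cast
    nlinarith
  unfold Vs
  rw [Finset.mem_filter, Finset.mem_Icc]
  refine ⟨⟨by exact_mod_cast hk2, by exact_mod_cast hk1⟩, u, ?_, htu⟩
  have h1 : |s * ((z.1 : ℝ) - z.2) / L - ((⌊s * z.1⌋ - ⌊s * z.2⌋ : ℤ) : ℝ) / L| ≤ 1 / L := by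
    rw [← sub_div, abs_div, abs_of_pos (by linarith : (0 : ℝ) < L)]
    apply div_le_div_of_nonneg_right _ (by linarith)
    push_cast
    rw [abs_le]
    constructor <;> nlinarith
  have h2 := abs_sub_le u (s * ((z.1 : ℝ) - z.2) / L) (((⌊s * z.1⌋ - ⌊s * z.2⌋ : ℤ) : ℝ) / L)
  have h3 : (8 : ℝ) / L + 1 / L ≤ 20 / L := by
    rw [← add_div]
    apply div_le_div_of_nonneg_right _ (by linarith)
    norm_num
  linarith

theorem ABG_proof : ABG_stmt :=
  ⟨fun P L s t y2 F Y hL hs0 hs8 _ hY hY1 hPF hy => ABG_part1 P L s t y2 F Y hL hs0 hs8 hY hY1 hPF hy,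
    fun P L s t A hL hs0 hs8 hA => ABG_part2 P L s t A hL hs0 hs8 hA⟩

end Pool.Agent.HH
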