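import Pool.Agent.helper17.HH.SpecB

set_option autoImplicit false

namespace Pool.Agent.HH

open scoped Pointwise

/-- the choice of the scale -/
theorem BWC_scale (c1 s L : ℝ) (m : ℕ) (hc1 : 1 ≤ c1) (hm : 1 ≤ (m : ℝ)) (hP : Real.exp (4000 * m) ≤ L)
    (hsL : 1 ≤ s * L) (hyL : c1 * s * L * Real.exp m < L) :
    ∃ i : ℕ, i ≤ 4000 ∧ c1 * s * L * Real.exp m ≤ L * Real.exp (-(i * m)) ∧
      Real.exp ((4000 - i) * m) ≤ c1 * (s * L) * Real.exp (2 * m) := by
  have hL : 0 < L := lt_of_lt_of_le (Real.exp_pos _) hP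
  have hem : 0 < Real.exp (m : ℝ) := Real.exp_pos _
  set y : ℝ := c1 * s * L * Real.exp m with hy
  have hy' : y = c1 * (s * L) * Real.exp m := by rw [hy]; ring
  have hypos : 0 < y := by rw [hy']; positivity
  have hm0 : 0 < (m : ℝ) := by linarith
  set t : ℝ := Real.log (L / y) / m with ht
  have hlog : 0 ≤ Real.log (L / y) := by
    apply Real.log_nonneg
    rw [le_div_iff₀ hypos]
    linarith
  have ht0 : 0 ≤ t := div_nonneg hlog hm0.le
  have htm : t * m = Real.log (L / y) := by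
    rw [ht]; field_simp
  have hexp : Real.exp (t * m) = L / y := by
    rw [htm, Real.exp_log (div_pos hL hypos)]
  have key : ∀ i : ℕ, (i : ℝ) ≤ t → y ≤ L * Real.exp (-(i * m)) := by
    intro i hi
    have h1 : Real.exp (i * m) ≤ L / y := by
      rw [← hexp]
      exact Real.exp_le_exp.2 (mul_le_mul_of_nonneg_right hi hm0.le)
    rw [le_div_iff₀ hypos] at h1
    have h2 : y = (Real.exp (i * m) * y) * Real.exp (-(i * m)) := by
      rw [Real.exp_neg]
      field_simp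
    rw [h2]
    exact mul_le_mul_of_nonneg_right h1 (Real.exp_pos _).le
  have he2 : Real.exp (2 * (m : ℝ)) = Real.exp m * Real.exp m := by
    rw [← Real.exp_add]; ring_nf
  by_cases hfl : ⌊t⌋₊ ≤ 4000
  · refine ⟨⌊t⌋₊, hfl, key _ (Nat.floor_le ht0), ?_⟩
    have h1 : t < (⌊t⌋₊ : ℝ) + 1 := Nat.lt_floor_add_one t
    have h2 : L / y < Real.exp (((⌊t⌋₊ : ℝ) + 1) * m) := by
      rw [← hexp]
      exact Real.exp_lt_exp.2 (mul_lt_mul_of_pos_right h1 hm0)
    rw [div_lt_iff₀ hypos] at h2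
    have h3 : Real.exp ((4000 - (⌊t⌋₊ : ℝ)) * m) = Real.exp (4000 * m) * Real.exp (-((⌊t⌋₊ : ℝ) * m)) := by
      rw [← Real.exp_add]; ring_nf
    have h4 : c1 * (s * L) * Real.exp (2 * m) = (Real.exp (((⌊t⌋₊ : ℝ) + 1) * m) * y) * Real.exp (-((⌊t⌋₊ : ℝ) * m)) := by
      rw [he2, hy']
      have h5 : Real.exp (((⌊t⌋₊ : ℝ) + 1) * m) = Real.exp ((⌊t⌋₊ : ℝ) * m) * Real.exp m := by
        rw [← Real.exp_add]; ring_nf
      rw [h5, Real.exp_neg]
      field_simp
    rw [h3, h4]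
    exact mul_le_mul_of_nonneg_right (hP.trans h2.le) (Real.exp_pos _).le
  · push Not at hfl
    refine ⟨4000, le_rfl, key _ ?_, ?_⟩
    · exact (Nat.cast_le.2 hfl.le).trans (Nat.floor_le ht0)
    · have h1 : ((4000 : ℝ) - ((4000 : ℕ) : ℝ)) * m = 0 := by
        push_cast; ring
      rw [h1, Real.exp_zero]
      have h2 : 1 ≤ Real.exp (2 * (m : ℝ)) := Real.one_le_exp (by positivity)
      have h3 : 1 ≤ c1 * (s * L) := by nlinarith
      nlinarith

theorem BWC_proof : BWC_stmt := by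
  intro C c1 hC hc1
  refine ⟨⌈Real.log (C * c1)⌉₊ + 1, ?_⟩
  intro m L W hm hL1 hL2 hW hG s k0 hs0 hs1
  have hCc : 0 < C * c1 := by positivity
  have hm1 : (1 : ℝ) ≤ m := by
    have h : 1 ≤ m := by omega
    exact_mod_cast h
  have hlogm : Real.log (C * c1) ≤ m := by
    have h1 : Real.log (C * c1) ≤ (⌈Real.log (C * c1)⌉₊ : ℝ) := Nat.le_ceil _
    have h2 : ((⌈Real.log (C * c1)⌉₊ : ℕ) : ℝ) ≤ (m : ℝ) := by
      exact_mod_cast (show ⌈Real.log (C * c1)⌉₊ ≤ m by omega)
    linarith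
  have hCm : C * c1 ≤ Real.exp m := by
    rw [← Real.exp_log hCc]
    exact Real.exp_le_exp.2 hlogm
  have hLpos : 0 < (L : ℝ) := lt_of_lt_of_le (Real.exp_pos _) hL1
  have hsL : 1 ≤ s * L := by
    rwa [div_le_iff₀ hLpos] at hs0
  have hdiv : c1 * s * L / Real.exp (-(m : ℝ)) = c1 * s * L * Real.exp m := by
    rw [Real.exp_neg, div_inv_eq_mul]
  obtain ⟨i, hi, k1, hsub, hE⟩ : ∃ i : ℕ, i ≤ 4000 ∧ ∃ k1 : ℤ,
      (∀ k ∈ W, |(k : ℝ) - k0| ≤ c1 * s * L / Real.exp (-(m : ℝ)) → |(k : ℝ) - k1| ≤ L * Real.exp (-(i * m))) ∧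
      Real.exp ((4000 - i) * m) ≤ c1 * (s * L) * Real.exp (2 * m) := by
    by_cases hyL : c1 * s * L * Real.exp m < L
    · obtain ⟨i, hi, h1, h2⟩ := BWC_scale c1 s L m hc1 hm1 hL1 hsL hyL
      refine ⟨i, hi, k0, ?_, h2⟩
      intro k _ hk
      rw [hdiv] at hk
      exact hk.trans h1
    · push Not at hyL
      refine ⟨0, Nat.zero_le _, 0, ?_, ?_⟩
      · intro k hk _
        have h1 := hW k hk
        have h2 : |k| ≤ (L : ℤ) := by
          have := abs_nonneg k
          linarith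
        have h3 : |(k : ℝ)| ≤ (L : ℝ) := by exact_mod_cast h2
        simpa using h3
      · have h1 : ((4000 : ℝ) - ((0 : ℕ) : ℝ)) * m = 4000 * m := by push_cast; ring
        rw [h1]
        have he : Real.exp (m : ℝ) ≤ Real.exp (2 * (m : ℝ)) := Real.exp_le_exp.2 (by linarith)
        calc Real.exp (4000 * (m : ℝ)) ≤ L := hL1
          _ ≤ c1 * s * L * Real.exp m := hyL
          _ = c1 * (s * L) * Real.exp m := by ring
          _ ≤ c1 * (s * L) * Real.exp (2 * m) := mul_le_mul_of_nonneg_left he (by positivity)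
  have hcard : ((W.filter fun k : ℤ => |(k : ℝ) - k0| ≤ c1 * s * L / Real.exp (-(m : ℝ))).card : ℝ) ≤
      C * Real.exp ((1 / 2 + eta) * ((4000 - i) * m)) := by
    refine le_trans ?_ (hG i hi k1)
    have : (W.filter fun k : ℤ => |(k : ℝ) - k0| ≤ c1 * s * L / Real.exp (-(m : ℝ))) ⊆
        (W.filter fun k : ℤ => |(k : ℝ) - k1| ≤ L * Real.exp (-(i * m))) := by
      intro k hk
      rw [Finset.mem_filter] at hk ⊢
      exact ⟨hk.1, hsub k hk.1 hk.2⟩
    exact_mod_cast Finset.card_le_card this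
  refine hcard.trans ?_
  -- the exponents
  have hi0 : (i : ℝ) ≤ 4000 := by exact_mod_cast hi
  have hi1 : (0 : ℝ) ≤ i := Nat.cast_nonneg i
  have hsplit : Real.exp ((1 / 2 + eta) * ((4000 - i) * m)) =
      Real.sqrt (Real.exp ((4000 - i) * m)) * Real.exp (eta * ((4000 - i) * m)) := by
    rw [← Real.exp_half, ← Real.exp_add]
    ring_nf
  have hsq : Real.sqrt (Real.exp ((4000 - i) * m)) ≤ c1 * Real.sqrt (s * L) * Real.exp m := by
    apply Real.sqrt_le_iff.2
    refine ⟨by positivity, ?_⟩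
    have h1 : (c1 * Real.sqrt (s * L) * Real.exp m) ^ 2 = c1 ^ 2 * (s * L) * Real.exp (2 * m) := by
      rw [mul_pow, mul_pow, Real.sq_sqrt (by linarith), ← Real.exp_nat_mul]
      push_cast
      ring
    rw [h1]
    refine hE.trans ?_
    apply mul_le_mul_of_nonneg_right _ (Real.exp_pos _).le
    apply mul_le_mul_of_nonneg_right _ (by linarith)
    nlinarith
  have heta : Real.exp (eta * ((4000 - i) * m)) ≤ Real.exp m := by
    apply Real.exp_le_exp.2
    unfold eta
    nlinarith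
  have hL4 : Real.exp (4 * m) ≤ (L : ℝ) ^ (1 / 1000 : ℝ) := by
    have h1 : Real.exp (4 * m) = (Real.exp (4000 * m)) ^ (1 / 1000 : ℝ) := by
      rw [← Real.exp_mul]
      ring_nf
    rw [h1]
    exact Real.rpow_le_rpow (Real.exp_pos _).le hL1 (by norm_num)
  have hs : 0 ≤ Real.sqrt (s * L) := Real.sqrt_nonneg _
  have hem : 0 < Real.exp (m : ℝ) := Real.exp_pos _
  calc C * Real.exp ((1 / 2 + eta) * ((4000 - i) * m))
      = C * (Real.sqrt (Real.exp ((4000 - i) * m)) * Real.exp (eta * ((4000 - i) * m))) := by rw [hsplit]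
    _ ≤ C * ((c1 * Real.sqrt (s * L) * Real.exp m) * Real.exp m) := by
        apply mul_le_mul_of_nonneg_left _ (by linarith)
        exact mul_le_mul hsq heta (Real.exp_pos _).le (by positivity)
    _ = (C * c1) * (Real.exp m * Real.exp m) * Real.sqrt (s * L) := by ring
    _ ≤ Real.exp m * (Real.exp m * Real.exp m) * Real.sqrt (s * L) := by
        apply mul_le_mul_of_nonneg_right _ hs
        exact mul_le_mul_of_nonneg_right hCm (by positivity)
    _ ≤ Real.exp (4 * m) * Real.sqrt (s * L) := by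
        apply mul_le_mul_of_nonneg_right _ hs
        rw [← Real.exp_add, ← Real.exp_add]
        exact Real.exp_le_exp.2 (by linarith)
    _ ≤ (L : ℝ) ^ (1 / 1000 : ℝ) * Real.sqrt (s * L) := mul_le_mul_of_nonneg_right hL4 hs

end Pool.Agent.HH
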